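import Pool.Agent.V11330.TC.Count

set_option autoImplicit false

namespace Pool.Agent.Results.MP_13da68_co.TileCount

open Pool.Agent.V11330.TC

/-- Both questions about the number `t_{n,d}` of subsets of `[n]^d` which tile `ℤ^d`.
`(1)` (Q1, affirmative) for every `d` one has `t_{n,d} ≤ K n^C (3^{1/3})^{n^d}` for all `n ≥ 1`,
with constants `C, K` depending only on `d`.
`(2)` for every `d ≥ 3` the ratio `t_{n,d} / (n^{2d-4} (3^{1/3})^{n^d})` is unbounded.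
`(3)` (Q2, negative) for every `d ≥ 3`, `t_{n,d}` is not `O(n^{d-1} (3^{1/3})^{n^d})`.
`(4)` (Q2 as stated) it is false that `t_{n,d} = O(n^{d-1} (3^{1/3})^{n^d})` for every `d ≥ 1`. -/
theorem result :
    (∀ d : ℕ, ∃ C : ℕ, ∃ K : ℝ, ∀ n : ℕ, 1 ≤ n →
      (tileCount n d : ℝ) ≤ K * (n : ℝ) ^ C * ((3 : ℝ) ^ (1 / 3 : ℝ)) ^ (n ^ d)) ∧
    (∀ d : ℕ, 3 ≤ d → ∀ K : ℝ, ∀ n₀ : ℕ, ∃ n ≥ n₀,
      K * (n : ℝ) ^ (2 * d - 4) * ((3 : ℝ) ^ (1 / 3 : ℝ)) ^ (n ^ d) < (tileCount n d : ℝ)) ∧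
    (∀ d : ℕ, 3 ≤ d → ¬ ∃ K : ℝ, ∃ n₀ : ℕ, ∀ n ≥ n₀,
      (tileCount n d : ℝ) ≤ K * (n : ℝ) ^ (d - 1) * ((3 : ℝ) ^ (1 / 3 : ℝ)) ^ (n ^ d)) ∧
    ¬ (∀ d : ℕ, 1 ≤ d → ∃ K : ℝ, ∃ n₀ : ℕ, ∀ n ≥ n₀,
      (tileCount n d : ℝ) ≤ K * (n : ℝ) ^ (d - 1) * ((3 : ℝ) ^ (1 / 3 : ℝ)) ^ (n ^ d)) := by
  have key : ∀ d : ℕ, 3 ≤ d → ∀ K : ℝ, ∀ n₀ : ℕ, ∃ n ≥ n₀, 1 ≤ n ∧
      K * (n : ℝ) ^ (2 * d - 4) * ((3 : ℝ) ^ (1 / 3 : ℝ)) ^ (n ^ d) < (tileCount n d : ℝ) := by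
    intro d hd K n₀
    obtain ⟨k, rfl⟩ : ∃ k, d = k + 2 := ⟨d - 2, by omega⟩
    have e : 2 * (k + 2) - 4 = 2 * k := by omega
    rw [e]
    exact lower k K n₀
  have h3 : ∀ d : ℕ, 3 ≤ d → ¬ ∃ K : ℝ, ∃ n₀ : ℕ, ∀ n ≥ n₀,
      (tileCount n d : ℝ) ≤ K * (n : ℝ) ^ (d - 1) * ((3 : ℝ) ^ (1 / 3 : ℝ)) ^ (n ^ d) := by
    rintro d hd ⟨K, n₀, h⟩
    obtain ⟨n, hn, hn1, hlt⟩ := key d hd |K| n₀
    have h1 := h n hn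
    have hn' : (1 : ℝ) ≤ n := by exact_mod_cast hn1
    have h2 : (n : ℝ) ^ (d - 1) ≤ (n : ℝ) ^ (2 * d - 4) :=
      pow_le_pow_right₀ hn' (by omega)
    have h4 : (0 : ℝ) < ((3 : ℝ) ^ (1 / 3 : ℝ)) ^ (n ^ d) := by positivity
    have h5 : K * (n : ℝ) ^ (d - 1) * ((3 : ℝ) ^ (1 / 3 : ℝ)) ^ (n ^ d) ≤
        |K| * (n : ℝ) ^ (2 * d - 4) * ((3 : ℝ) ^ (1 / 3 : ℝ)) ^ (n ^ d) := by
      apply mul_le_mul_of_nonneg_right _ h4.le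
      calc K * (n : ℝ) ^ (d - 1) ≤ |K| * (n : ℝ) ^ (d - 1) :=
            mul_le_mul_of_nonneg_right (le_abs_self K) (by positivity)
        _ ≤ |K| * (n : ℝ) ^ (2 * d - 4) := mul_le_mul_of_nonneg_left h2 (abs_nonneg K)
    linarith
  refine ⟨fun d => upper d, ?_, h3, ?_⟩
  · intro d hd K n₀
    obtain ⟨n, hn, -, h⟩ := key d hd K n₀
    exact ⟨n, hn, h⟩
  · intro h
    exact h3 3 le_rfl (h 3 (by norm_num))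

end Pool.Agent.Results.MP_13da68_co.TileCount
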